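import Pool.Agent.H23.Ori4

set_option autoImplicit false

namespace Pool.Agent.Results.MP_bc7fec_lc.Poly
open Pool.Agent.H11.PT Pool.Agent.H23.Ori
open scoped ENNReal

/-- `(b, u, v, p, q)`: an undirected edge `uv` if `b`, else an arc `(u, v)`;
its length is `bin p / (bin q + 1)` -/
abbrev Edge := Bool × ℕ × ℕ × List Bool × List Bool

def ed (L : List Edge) (i : ℕ) : Edge := L.getD i (false, 0, 0, [], [])

/-- `(i, false)` is the `i`-th edge directed from `u` to `v`, `(i, true)` from `v` to `u` -/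
def tl (L : List Edge) (d : ℕ × Bool) : ℕ := bif d.2 then (ed L d.1).2.2.1 else (ed L d.1).2.1

def hd (L : List Edge) (d : ℕ × Bool) : ℕ := bif d.2 then (ed L d.1).2.1 else (ed L d.1).2.2.1

noncomputable def len (L : List Edge) (d : ℕ × Bool) : ℝ≥0∞ :=
  (bin (ed L d.1).2.2.2.1 : ℝ≥0∞) / (bin (ed L d.1).2.2.2.2 + 1)

/-- least length of a directed `x`-`y` path with arcs in `S` (`⊤` if there is none) -/
noncomputable def dist (L : List Edge) (S : ℕ × Bool → Prop) (x y : ℕ) : ℝ≥0∞ :=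
  ⨅ (p : List (ℕ × Bool)) (_ : Wk (tl L) (hd L) S x p y ∧ (x :: p.map (hd L)).Nodup),
    (p.map (len L)).sum

/-- the arcs of the digraph with both directions of each undirected edge -/
def All (L : List Edge) (d : ℕ × Bool) : Prop :=
  d.1 < L.length ∧ (d.2 = true → (ed L d.1).1 = true)

/-- the arcs of the orientation that directs the undirected edge `i` from `v` to `u` iff `o i` -/
def Ori (L : List Edge) (o : ℕ → Bool) (d : ℕ × Bool) : Prop :=
  d.1 < L.length ∧ d.2 = ((ed L d.1).1 && o d.1)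

/-- yes-instances `(L, s, t)` -/
def Yes (x : List Edge × ℕ × ℕ) : Prop :=
  ∃ o, dist x.1 (Ori x.1 o) x.2.1 x.2.2 = dist x.1 (All x.1) x.2.1 x.2.2 ∧
    dist x.1 (Ori x.1 o) x.2.2 x.2.1 = dist x.1 (All x.1) x.2.2 x.2.1

open Pool.Agent.H25.BN Relation

def DL (L : List Edge) : List (ℕ × Bool) :=
  (List.range L.length ×ˢ [false, true]).filter fun d => !d.2 || (ed L d.1).1

theorem all_eq (L : List Edge) : All L = (· ∈ DL L) := by
  ext ⟨i, b⟩; cases b <;> simp [All, DL]

def den (L : List Edge) (i : ℕ) : ℕ := bin (ed L i).2.2.2.2 + 1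

def wt (L : List Edge) (d : ℕ × Bool) : ℕ := bin (ed L d.1).2.2.2.1 *
  (((List.range L.length).filter (· != d.1)).map (den L)).prod

def P (L : List Edge) (s : ℕ) : ℕ → ℕ := bf (tl L) (hd L) (wt L) (DL L) s
  ((DL L).length * ((DL L).map (wt L)).sum + 1) (DL L).length

theorem pot (L : List Edge) (s : ℕ) : Pot (tl L) (hd L) (All L) (wt L) s (P L s) :=
  all_eq L ▸ bf_pot _ _ _ _ _ _ (Nat.lt_succ_self _)

def T (L : List Edge) (s : ℕ) := Ti (tl L) (hd L) (All L) (wt L) s (P L s)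

def rv (d : ℕ × Bool) : ℕ × Bool := (d.1, !d.2)

theorem inv (L : List Edge) : Inv (tl L) (hd L) rv :=
  ⟨by simp [rv], by simp [rv, Prod.ext_iff], by rintro ⟨i, _ | _⟩ <;> rfl⟩

theorem dq {L : List Edge} {S : ℕ × Bool → Prop} (hS : ∀ d, S d → All L d) (x y : ℕ) :
    dist L S x y = dist L (All L) x y ↔
      ¬ Re (tl L) (hd L) (All L) x y ∨ Re (tl L) (hd L) (fun d => S d ∧ T L x d) x y := by
  obtain ⟨D, hD⟩ : ∃ D : ℕ, D = ((List.range L.length).map (den L)).prod := ⟨_, rfl⟩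
  have d0 : (D : ℝ≥0∞) ≠ 0 := by
    rw [hD]; exact_mod_cast (List.prod_pos (by simp [den])).ne'
  have a : ∀ p : List (ℕ × Bool), (∀ d ∈ p, All L d) →
      (p.map (len L)).sum * D = ((p.map (wt L)).sum : ℕ) := fun p => by
    induction p with
    | nil => simp
    | cons d p ih =>
      intro m
      rw [List.forall_mem_cons] at m
      rw [List.map_cons, List.map_cons, List.sum_cons, List.sum_cons, add_mul, ih m.2, Nat.cast_add]
      congr 1
      rw [hD, ← List.prod_map_erase _ (List.mem_range.2 m.1.1), List.nodup_range.erase_eq_filter,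
        wt, len, den]
      push_cast
      rw [← mul_assoc, ENNReal.div_mul_cancel (by simp) (by simp)]
  have i := pot L x
  have mo : dist L (All L) x y ≤ dist L S x y :=
    le_iInf₂ fun p b => iInf₂_le p ⟨b.1.mono fun d _ => hS d, b.2⟩
  refine ⟨fun e => or_iff_not_imp_left.2 fun r => ?_, fun e => le_antisymm ?_ mo⟩
  · obtain ⟨p, b, c⟩ := i.ex y (not_not.1 r)
    obtain ⟨q, f, g⟩ := b.path
    have k := (f.map (wt L)).sum_le_sum (by simp)
    have : dist L S x y < (P L x y + 1 : ℕ) / D := e ▸ (iInf₂_le q g).trans_lt (by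
      rw [ENNReal.lt_div_iff_mul_lt (.inl d0) (.inl (by simp)), a q g.1.mem]
      exact_mod_cast by omega)
    simp only [dist, iInf_lt_iff] at this
    obtain ⟨r, ⟨u, -⟩, v⟩ := this
    have u' := u.mono fun d _ => hS d
    rw [ENNReal.lt_div_iff_mul_lt (.inl d0) (.inl (by simp)), a r u'.mem, Nat.cast_lt] at v
    exact ⟨r, (i.ti .refl u' (by rw [i.zero]; omega)).mono fun d m n => ⟨u.mem d m, n⟩⟩
  · refine le_iInf₂ fun q b => ?_
    obtain ⟨p, c⟩ := e.resolve_left (not_not.2 ⟨q, b.1⟩)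
    obtain ⟨r, -, f, g⟩ := c.path
    refine (iInf₂_le r ⟨f.mono fun _ _ a => a.1, g⟩).trans ?_
    rw [← ENNReal.mul_le_mul_iff_left d0 (by simp), a q b.1.mem, a r fun d m => hS d (f.mem d m).1,
      Nat.cast_le]
    have := ti_sum (f.mono fun _ _ a => a.2)
    have := i.le q y b.1
    omega

theorem yes_iff (L : List Edge) (s t : ℕ) : Yes (L, s, t) ↔ ¬ Re (tl L) (hd L) (All L) s t ∨
    ¬ Re (tl L) (hd L) (All L) t s ∨
    CW (tl L) (hd L) (tl L) (hd L) (T L s) (T L t) (fun d e => e = rv d) s t t s := by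
  have so : ∀ o d, Ori L o d → All L d := fun o d a => ⟨a.1, fun b => by
    have := a.2; simp_all⟩
  have mk : ∀ p : List (ℕ × Bool), (∀ d ∈ p, All L d) → (∀ d ∈ p, rv d ∉ p) →
      ∃ o, ∀ d ∈ p, Ori L o d := fun p a b => ⟨fun i => decide ((i, true) ∈ p), by
    rintro ⟨i, _ | _⟩ m
    · exact ⟨(a _ m).1, by simp [show (i, true) ∉ p from b _ m]⟩
    · exact ⟨(a _ m).1, by simp [m, (a _ m).2 rfl]⟩⟩
  have one : ∀ x y, ∃ o, ¬ Re (tl L) (hd L) (All L) x y ∨
      Re (tl L) (hd L) (fun d => Ori L o d ∧ T L x d) x y := fun x y => by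
    by_cases r : Re (tl L) (hd L) (All L) x y
    · obtain ⟨p, a, b⟩ := (pot L x).ex y r
      obtain ⟨q, -, c, e⟩ := ((pot L x).ti .refl a (by rw [(pot L x).zero]; omega)).cons' (inv L)
      obtain ⟨o, f⟩ := mk q (fun d m => (c.mem d m).1) e
      exact ⟨o, .inr ⟨q, c.mono fun d m n => ⟨f d m, n⟩⟩⟩
    · exact ⟨fun _ => true, .inl r⟩
  simp only [Yes, dq (so _)]
  constructor
  · rintro ⟨o, a | ⟨p, a⟩, b | ⟨q, b⟩⟩
    · exact .inl a
    · exact .inl a
    · exact .inr (.inl b)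
    refine .inr (.inr ⟨p, q, a.mono fun _ _ a => a.2, b.mono fun _ _ a => a.2, ?_⟩)
    rintro d m _ n rfl
    have e := (b.mem _ n).1.2.trans (a.mem _ m).1.2.symm
    simp [rv] at e
  · rintro (a | a | ⟨p, q, a, b, c⟩)
    · exact (one t s).imp fun o b => ⟨.inl a, b⟩
    · exact (one s t).imp fun o b => ⟨b, .inl a⟩
    obtain ⟨p, a1, a, a2⟩ := a.cons' (inv L)
    obtain ⟨q, b1, b, b2⟩ := b.cons' (inv L)
    obtain ⟨o, f⟩ := mk (p ++ q) (fun d m => (List.mem_append.1 m).elim (fun m => (a.mem d m).1)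
      fun m => (b.mem d m).1) fun d m n => by
        rcases List.mem_append.1 m with m | m <;> rcases List.mem_append.1 n with n | n
        · exact a2 d m n
        · exact c _ (a1 m) _ (b1 n) rfl
        · exact c _ (a1 n) _ (b1 m) ((inv L).rr d).symm
        · exact b2 d m n
    exact ⟨o, .inr ⟨p, a.mono fun d m n => ⟨f d (by simp [m]), n⟩⟩,
      .inr ⟨q, b.mono fun d m n => ⟨f d (by simp [m]), n⟩⟩⟩

section
variable {α : Type} [Enc α] {L : α → List Edge} {d : α → ℕ × Bool} {s t u v x y : α → ℕ}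

@[fun_prop] theorem pt_ed (a : PT L) (b : PT s) : PT fun z => ed (L z) (s z) := by
  unfold ed; fun_prop
@[fun_prop] theorem pt_tl (a : PT L) (b : PT d) : PT fun z => tl (L z) (d z) := by
  unfold tl; fun_prop
@[fun_prop] theorem pt_hd (a : PT L) (b : PT d) : PT fun z => hd (L z) (d z) := by
  unfold hd; fun_prop
@[fun_prop] theorem pt_DL (a : PT L) : PT fun z => DL (L z) := by unfold DL; fun_prop
@[fun_prop] theorem pt_rv (b : PT d) : PT fun z => rv (d z) := by unfold rv; fun_prop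
@[fun_prop] theorem pt_All (a : PT L) (b : PT d) : PT fun z => dc (All (L z) (d z)) := by
  simp only [all_eq]; fun_prop

theorem pt_wt (a : PT L) (b : PT d) : PT fun z => Bn.mk (wt (L z) (d z)) :=
  PT_bmul (PT.ofL (by fun_prop)) (PT_bprod (f := fun z => den (L z)) (by fun_prop)
    (PT.badd (PT.ofL (f := fun y : α × ℕ => (ed (L y.1) y.2).2.2.2.2) (by fun_prop))
      (PT.const (Bn.mk 1))))

theorem pt_P (a : PT L) (b : PT s) (c : PT v) : PT fun z => Bn.mk (P (L z) (s z) (v z)) := by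
  have w : PT fun y : α × ℕ × Bool => Bn.mk (wt (L y.1) y.2) := pt_wt (by fun_prop) (by fun_prop)
  refine pt_bf (by fun_prop) (by fun_prop) (by fun_prop) w b ?_ (by fun_prop) c
  exact (PT.badd (PT_bmul (PT.ofN (pt_DL a).length) (PT.bsum (PT.map
    (f := fun z d => Bn.mk (wt (L z) d)) (pt_DL a) w))) (PT.const ⟨1⟩)).of_eq fun z => by
      simp [badd, bmul, bsum, Function.comp_def]

theorem dcLe {f g : α → ℕ} (a : PT fun z => Bn.mk (f z)) (b : PT fun z => Bn.mk (g z)) :
    PT fun z => dc (f z ≤ g z) := (PT.ble a b).of_eq fun _ => dc_eq (by simp [ble])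

@[fun_prop] theorem pt_reA (a : PT L) (b : PT u) (c : PT v) :
    PT fun z => dc (Re (tl (L z)) (hd (L z)) (All (L z)) (u z) (v z)) :=
  pt_re (pt_DL a) (by fun_prop) (by fun_prop) (by fun_prop) (by simp [all_eq]) b c

@[fun_prop] theorem pt_T (a : PT L) (b : PT s) (c : PT d) :
    PT fun z => dc (T (L z) (s z) (d z)) := by
  have e1 := pt_P a b (pt_hd a c)
  have e2 := PT.badd (pt_P a b (pt_tl a c)) (pt_wt a c)
  exact dcAnd (by fun_prop) (dcAnd (by fun_prop)
    (dc_of (dcAnd (dcLe e1 e2) (dcLe e2 e1)) fun _ => le_antisymm_iff.symm))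

theorem T_mem {L : List Edge} {s : ℕ} {d : ℕ × Bool} (a : T L s d) : d ∈ DL L := by
  have := a.1; rwa [all_eq] at this

theorem rv_mem {L : List Edge} {d : ℕ × Bool} (a : d ∈ DL L) :
    d ∈ DL L ++ (DL L).map rv ∧ ∀ e, d = rv e → e ∈ DL L ++ (DL L).map rv := by
  refine ⟨by simp [a], ?_⟩
  rintro e rfl
  exact List.mem_append_right _ (List.mem_map.2 ⟨_, a, (inv L).rr e⟩)

def H (L : List Edge) (s t : ℕ) (d : ℕ × Bool) : Prop := T L s d ∧ T L t d

@[fun_prop] theorem pt_H (a : PT L) (b : PT s) (b' : PT t) (c : PT d) :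
    PT fun z => dc (H (L z) (s z) (t z) (d z)) := by unfold H; fun_prop

@[fun_prop] theorem pt_reH (a : PT L) (b : PT s) (b' : PT t) (c : PT u) (c' : PT v) :
    PT fun z => dc (Re (tl (L z)) (hd (L z)) (H (L z) (s z) (t z)) (u z) (v z)) :=
  pt_re (pt_DL a) (by fun_prop) (by fun_prop) (by fun_prop) (fun _ _ a => T_mem a.1) c c'

def K (L : List Edge) (s t : ℕ) (d : ℕ × Bool) : Prop :=
  H L s t d ∧ Re (tl L) (hd L) (H L s t) (hd L d) (tl L d)

@[fun_prop] theorem pt_K (a : PT L) (b : PT s) (b' : PT t) (c : PT d) :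
    PT fun z => dc (K (L z) (s z) (t z) (d z)) := by unfold K; fun_prop

@[fun_prop] theorem pt_reK (a : PT L) (b : PT s) (b' : PT t) (c : PT u) (c' : PT v) :
    PT fun z => dc (Re (tl (L z)) (hd (L z)) (K (L z) (s z) (t z)) (u z) (v z)) :=
  pt_re (pt_DL a) (by fun_prop) (by fun_prop) (by fun_prop) (fun _ _ a => T_mem a.1.1) c c'

@[fun_prop] theorem pt_U (a : PT L) (b : PT s) (b' : PT t) (e : PT d) (c : PT u) (c' : PT v) :
    PT fun z => dc (U (tl (L z)) (hd (L z)) rv (K (L z) (s z) (t z)) (d z) (u z) (v z)) :=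
  pt_re (DL := fun z => DL (L z) ++ (DL (L z)).map rv) (by fun_prop) (by fun_prop) (by fun_prop)
    (by fun_prop) (fun _ _ a => a.1.elim (fun a => (rv_mem (T_mem a.1.1)).1)
      fun a => (rv_mem (T_mem a.1.1)).2 _ rfl) c c'

theorem pt_Cond (a : PT L) (b : PT s) (b' : PT t) (c : PT u) (c' : PT v) (e : PT x) (e' : PT y) :
    PT fun z => dc (Cond (tl (L z)) (hd (L z)) rv (K (L z) (s z) (t z)) (u z) (v z) (x z) (y z)) :=
  dcAnd (by fun_prop) (dcAnd (by fun_prop) (dc_of (p := fun z => ∀ f ∈ DL (L z),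
    ¬ K (L z) (s z) (t z) f ∨ ¬ K (L z) (s z) (t z) (rv f) ∨
    U (tl (L z)) (hd (L z)) rv (K (L z) (s z) (t z)) f (u z) (v z) ∨
    U (tl (L z)) (hd (L z)) rv (K (L z) (s z) (t z)) f (x z) (y z) ∨
    U (tl (L z)) (hd (L z)) rv (K (L z) (s z) (t z)) f (u z) (x z)) (by fun_prop) fun _ =>
      ⟨fun g f k k' => ((g f (T_mem k.1.1)).resolve_left (not_not.2 k)).resolve_left (not_not.2 k'),
        fun g f _ => by have := g f; tauto⟩))

theorem pt_two (a : PT L) (b : PT s) (b' : PT t) (c : PT u) (c' : PT v) (e : PT x) (e' : PT y) :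
    PT fun z => dc (CW (tl (L z)) (hd (L z)) (tl (L z)) (hd (L z)) (H (L z) (s z) (t z))
      (H (L z) (s z) (t z)) (fun d e => e = rv d) (u z) (v z) (x z) (y z)) :=
  dc_of (pt_step (I := fun z => Cond (tl (L z)) (hd (L z)) rv (K (L z) (s z) (t z))) (pt_DL a)
    (by fun_prop) (by fun_prop) (by fun_prop) (by fun_prop) (by fun_prop) (fun _ _ a => T_mem a.1)
    (by fun_prop) (fun _ _ a => T_mem a.1) (by fun_prop) (by fun_prop)
    (pt_Cond (by fun_prop) (by fun_prop) (by fun_prop) (by fun_prop) (by fun_prop) (by fun_prop)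
      (by fun_prop)) c e c' e')
    fun z => (two (inv _) ((DL (L z)).finite_toSet.subset fun _ a => T_mem a.1)).symm

end

theorem result : InP Yes := by
  have a : PT fun z : List Edge × ℕ × ℕ => dc (ReflTransGen (Step (tl z.1) (hd z.1) (hd z.1)
      (tl z.1) (T z.1 z.2.1) (T z.1 z.2.2) (fun d e => e = rv d)
      (fun u v => P z.1 z.2.1 u + P z.1 z.2.2 v ≤ P z.1 z.2.1 v + P z.1 z.2.2 u)
      (fun x x' y y' => CW (tl z.1) (hd z.1) (tl z.1) (hd z.1) (H z.1 z.2.1 z.2.2)
        (H z.1 z.2.1 z.2.2) (fun d e => e = rv d) x x' y' y) z.2.2 z.2.2)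
      (z.2.1, z.2.1) (z.2.2, z.2.2)) :=
    pt_step (DL := fun z => DL z.1) (by fun_prop) (by fun_prop) (by fun_prop) (by fun_prop)
      (by fun_prop) (by fun_prop) (fun _ _ => T_mem) (by fun_prop) (fun _ _ => T_mem) (by fun_prop)
      (dcLe (PT.badd (pt_P (by fun_prop) (by fun_prop) (by fun_prop))
        (pt_P (by fun_prop) (by fun_prop) (by fun_prop))) (PT.badd
        (pt_P (by fun_prop) (by fun_prop) (by fun_prop))
        (pt_P (by fun_prop) (by fun_prop) (by fun_prop))))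
      (pt_two (by fun_prop) (by fun_prop) (by fun_prop) (by fun_prop) (by fun_prop) (by fun_prop)
        (by fun_prop)) (by fun_prop) (by fun_prop) (by fun_prop) (by fun_prop)
  refine (dcOr (dcNot (pt_reA (L := fun z => z.1) (u := fun z => z.2.1) (v := fun z => z.2.2)
    (by fun_prop) (by fun_prop) (by fun_prop))) (dcOr (dcNot (pt_reA (L := fun z => z.1)
    (u := fun z => z.2.2) (v := fun z => z.2.1) (by fun_prop) (by fun_prop) (by fun_prop))) a)).inP
    fun ⟨L, s, t⟩ => ?_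
  rw [dc_iff, yes_iff]
  by_cases r1 : Re (tl L) (hd L) (All L) s t
  · by_cases r2 : Re (tl L) (hd L) (All L) t s
    · exact or_congr .rfl (or_congr .rfl (top (inv L) (pot L s) (pot L t) r1 r2))
    · simp [r2]
  · simp [r1]

end Pool.Agent.Results.MP_bc7fec_lc.Poly
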